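import Pool.Agent.N979.P1.Stm

/-!
# Orientable fillings of the circle: rational data (PROJECT P1)
-/

set_option autoImplicit false

open MeasureTheory Metric Set Filter Topology InnerProductGeometry

namespace Pool.Agent.N979.P1

open Pool.Agent.H241R3.FV Pool.Agent.N526.CP

/-- rational data -/
structure DatQ (N L : ℕ) where
  ka : ℚ
  ρ : Fin N → ℚ
  t : Fin L → ℚ
  m0 : Fin N → ℚ
  m : Fin N → Fin L → ℚ

/-- the real data -/
noncomputable def DatQ.toDat {N L : ℕ} (D : DatQ N L) : Dat N L where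
  ka := (D.ka : ℝ)
  ρ := fun j => (D.ρ j : ℝ)
  t := fun i => (D.t i : ℝ)
  m0 := fun j => (D.m0 j : ℝ)
  m := fun j i => (D.m j i : ℝ)

/-- the upper end of the interval `J` -/
def DatQ.rhi {N L : ℕ} (D : DatQ N L) (R : ℚ) (J : Fin N) : ℚ :=
  if h : J.val + 1 < N then D.ρ ⟨J.val + 1, h⟩ else R

/-- the numerical condition for the interval `J` at the radius `r` with the weights `l` -/
def CondQ {N L : ℕ} (D : DatQ N L) (J : Fin N) (r : ℚ) (l : Fin (L + 1) → ℚ) : Prop :=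
  Cond D.toDat.t (D.toDat.al (fA (J.val + 1))) (D.toDat.be (fA (J.val + 1)))
    (D.toDat.al (fC D.toDat (J.val + 1) (r : ℝ))) (D.toDat.be (fC D.toDat (J.val + 1) (r : ℝ)))
    (fun i => (l i : ℝ))

/-- the value -/
noncomputable def ValE {N L : ℕ} (D : Dat N L) : ℝ :=
  4 * (2 / Real.pi * D.ka + ∑ j, (2 / Real.pi - D.ρ j) * (D.m0 j + ∑ i, D.m j i *
    (1 - (√(1 + D.t i ^ 2))⁻¹ + (D.t i - D.t i ^ 2 * (√(1 + D.t i ^ 2))⁻¹))))

/-- CHK: a computable test. Any function `ok` with this property is welcome. -/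
def S_CHK (ok : ∀ {N L : ℕ}, DatQ N L → (Fin (L + 1) → ℚ) → (Fin (L + 1) → ℚ) → Fin N → ℚ →
    (Fin (L + 1) → ℚ) → Bool) : Prop :=
  ∀ (N L : ℕ) (D : DatQ N L) (dlo dhi : Fin (L + 1) → ℚ) (J : Fin N) (r : ℚ)
    (l : Fin (L + 1) → ℚ), ok D dlo dhi J r l = true →
    (∀ i, ((dlo i : ℚ) : ℝ) ≤ Dl D.toDat.t i ∧ Dl D.toDat.t i ≤ ((dhi i : ℚ) : ℝ)) → CondQ D J r l

end Pool.Agent.N979.P1
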