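import Pool.Agent.N979.P1.Stm
import Pool.Agent.N979.P1.StmQ
import Pool.Agent.N979.CP.Fin
import Pool.Agent.N263.P1_COMA
import Pool.Agent.N250.P1_SEC
import Pool.Agent.N530.P1_VALP
import Pool.Agent.N289.P1_KLD
import Pool.Agent.N946.P1_ZDIF
import Pool.Agent.N134.P1_PTWP
import Pool.Agent.N441.P1_LIMP
import Pool.Agent.N364.P1_ENDP
import Pool.Agent.N427.P1_SECC
import Pool.Agent.N581.P1_LINA
import Pool.Agent.N849.P1_LIPP
import Pool.Agent.N225.P1_MAINP
import Pool.Agent.N252.P1_LEV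
import Pool.Agent.N300.P1_JZER
import Pool.Agent.N402.P1_SGN
import Pool.Agent.N451.P1_VALD
import Pool.Agent.N935.P1_ZF1
import Pool.Agent.N619.P1_FINP

/-!
# Orientable fillings of the circle (PROJECT P1): assembly
-/

set_option autoImplicit false

open MeasureTheory Metric Set Filter Topology InnerProductGeometry

namespace Pool.Agent.N979.P1.Fin

open Pool.Agent.H241R3.FV Pool.Agent.N526.CP Pool.Agent.N979.P1

theorem ptwp : S_PTWP :=
  Pool.Agent.N134.P1_PTWP.main Pool.Agent.N946.P1_ZDIF.main Pool.Agent.N581.P1_LINA.main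
    Pool.Agent.N935.P1ZF1.main Pool.Agent.N979.CP.Fin.rad

theorem finp : S_FINP :=
  Pool.Agent.N619.P1_FINP.main
    (Pool.Agent.N225.P1MAINP.main ptwp Pool.Agent.N252.P1_LEV.main Pool.Agent.N849.P1LIPP.main
      Pool.Agent.N530.P1.main)
    (Pool.Agent.N441.P1_LIMP.main Pool.Agent.N935.P1ZF1.main)

theorem secc : S_SECC :=
  Pool.Agent.N427.P1.main Pool.Agent.N263.P1_COMA.main Pool.Agent.N250.P1SEC.main

theorem endp (h : S_JPOL) : S_ENDP :=
  Pool.Agent.N364.P1.ENDP.main Pool.Agent.N289.P1.KLD.main h Pool.Agent.N300.P1_JZER.main secc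
    Pool.Agent.N402.P1SGN.main

/-- A certificate gives a lower bound for the area. -/
theorem bound (hJ : S_JPOL) {N L : ℕ} (D : DatQ N L) (R : ℚ) (c : ℝ)
    (hc : 2 / Real.pi ≤ ((R : ℚ) : ℝ) ∧ Cert D.toDat ((R : ℚ) : ℝ))
    (hv : (∀ j, D.toDat.ρ j ≤ 2 / Real.pi) ∧ c * Real.pi ≤ ValE D.toDat)
    {M : Type} [MetricSpace M] [CompactSpace M] (S : OFill 2 M)
    (hS : ∀ x y : Sph 2, angle (x : E 2) (y : E 2) ≤ dist (S.bd x) (S.bd y)) :
    ENNReal.ofReal (c * Real.pi) ≤ S.vol := by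
  have h1 := endp hJ N L D.toDat ((R : ℚ) : ℝ) hc.1 hc.2
  have h2 := finp D.toDat.k _ h1 M S hS
  have h3 := Pool.Agent.N451.P1VALD.main N L D.toDat hc.2.pos hv.1 hc.2.tpos
  rw [h3] at h2
  exact (ENNReal.ofReal_le_ofReal hv.2).trans h2

end Pool.Agent.N979.P1.Fin
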