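import Pool.Agent.N979.P1.Fin
import Pool.Agent.N979.P1.Dat
import Pool.Agent.N669.P1_JPOL
import Pool.Agent.N134.P1_VALN
import Pool.Agent.N664.P1_CERT

/-!
# Orientable fillings of the circle (PROJECT P1): the area is at least `1.95 π`, from the conditions
-/

set_option autoImplicit false

open MeasureTheory Metric Set Filter Topology InnerProductGeometry

namespace Pool.Agent.N979.P1.FinA

open Pool.Agent.H241R3.FV Pool.Agent.N526.CP Pool.Agent.N979.P1

theorem area0 (h : ∀ J, Pool.Agent.N979.P1.A.S_CK J) (M : Type) [MetricSpace M] [CompactSpace M]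
    (S : OFill 2 M)
    (hS : ∀ x y : Sph 2, angle (x : E 2) (y : E 2) ≤ dist (S.bd x) (S.bd y)) :
    ENNReal.ofReal (1.95 * Real.pi) ≤ S.vol := by
  have h1 := Fin.bound Pool.Agent.N669.P1_JPOL.main A.datQ A.RrQ (195 / 100)
    (Pool.Agent.N664.P1_CERT.main h) Pool.Agent.N134.P1VALN.main S hS
  rwa [show (1.95 : ℝ) = 195 / 100 by norm_num]

end Pool.Agent.N979.P1.FinA
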