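import Pool.Agent.N979.P1.FinB0
import Pool.Agent.N954.P1B.All

/-!
# Orientable fillings of the circle (PROJECT P1): the area is at least `1.96 π`
-/

set_option autoImplicit false

open MeasureTheory Metric Set Filter Topology InnerProductGeometry

namespace Pool.Agent.N979.P1.FinB

open Pool.Agent.H241R3.FV Pool.Agent.N526.CP Pool.Agent.N979.P1

theorem area (M : Type) [MetricSpace M] [CompactSpace M] (S : OFill 2 M)
    (hS : ∀ x y : Sph 2, angle (x : E 2) (y : E 2) ≤ dist (S.bd x) (S.bd y)) :
    ENNReal.ofReal (1.96 * Real.pi) ≤ S.vol :=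
  area0 (Pool.Agent.N954.P1B.All.main Pool.Agent.N937.P1B_BND.main) M S hS

end Pool.Agent.N979.P1.FinB
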