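import Pool.Agent.N979.P1.Fin
import Pool.Agent.N979.P1.DatB
import Pool.Agent.N669.P1_JPOL
import Pool.Agent.N189.P1B_VALN
import Pool.Agent.N712.P1B_CERT
import Pool.Agent.N937.P1B_BND

/-!
# Orientable fillings of the circle (PROJECT P1): the area is at least `1.96 π`, from the conditions
-/

set_option autoImplicit false

open MeasureTheory Metric Set Filter Topology InnerProductGeometry

namespace Pool.Agent.N979.P1.FinB

open Pool.Agent.H241R3.FV Pool.Agent.N526.CP Pool.Agent.N979.P1

theorem area0 (h : ∀ J, Pool.Agent.N979.P1.B.S_CK J) (M : Type) [MetricSpace M] [CompactSpace M]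
    (S : OFill 2 M)
    (hS : ∀ x y : Sph 2, angle (x : E 2) (y : E 2) ≤ dist (S.bd x) (S.bd y)) :
    ENNReal.ofReal (1.96 * Real.pi) ≤ S.vol := by
  have h1 := Fin.bound Pool.Agent.N669.P1_JPOL.main B.datQ B.RrQ (196 / 100)
    (Pool.Agent.N712.P1B_CERT.main h) Pool.Agent.N189.P1BVALN.main S hS
  rwa [show (1.96 : ℝ) = 196 / 100 by norm_num]

end Pool.Agent.N979.P1.FinB
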