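import Pool.Agent.N526.CP.Stm

/-!
# Orientable fillings of the circle: the area is at least `1.95 π` (PROJECT P1)
-/

set_option autoImplicit false

open MeasureTheory Metric Set Filter Topology InnerProductGeometry Matrix

namespace Pool.Agent.N979.P1

open Pool.Agent.H241R3.FV Pool.Agent.N526.CP

/-- the quarter turn -/
noncomputable def Jr (v : E 2) : E 2 := !₂[-(v 1), v 0]

/-- the coordinates of `z` in the frame `θ`, `Jr θ` -/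
noncomputable def Ax (θ : Sph 2) (z : E 2) : E 2 :=
  !₂[inner ℝ z (θ : E 2), inner ℝ z (Jr (θ : E 2))]

/-- the determinant of two vectors of the plane -/
def dt (u v : E 2) : ℝ := u 0 * v 1 - u 1 * v 0

/-- the statistic of a family of functions -/
noncomputable def Zg {M : Type} (g : Sph 2 → M → ℝ) (q : M) : E 2 :=
  ∫ θ : Sph 2, g θ q • (θ : E 2) ∂(sg 2)

/-- the maps to the plane -/
noncomputable def Ph {M : Type} (k : E 2 → ℝ) (g : Sph 2 → M → ℝ) (θ : Sph 2) (q : M) : E 2 :=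
  !₂[k (Ax θ (Zg g q)), g θ q]

/-- the maps of the disc with the same boundary values -/
noncomputable def Ph0 (k : E 2 → ℝ) (s : ℝ) (θ : Sph 2) (y : E 2) : E 2 :=
  !₂[k (Ax θ (zf 1 s • y)), Real.arcsin (s * inner ℝ y (θ : E 2))]

/-- the quadratic form of `k` at `z` -/
noncomputable def Jk (k : E 2 → ℝ) (z : E 2) (a : Sph 2 → E 2) : ℝ :=
  ∫ θ : Sph 2, dt (∫ θ' : Sph 2, (fderiv ℝ (fun w => k (Ax θ w)) z (θ' : E 2)) • a θ' ∂(sg 2))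
    (a θ) ∂(sg 2)

/-- `k` defines a calibration; it may be not differentiable on the circles with radius in `T`. -/
structure Adk (k : E 2 → ℝ) (T : Finset ℝ) : Prop where
  lip : ∃ K : NNReal, LipschitzWith K k
  odd : ∀ z : E 2, k !₂[z 0, -(z 1)] = -k z
  pos : ∀ ρ ∈ T, 0 < ρ
  diff : ∀ z : E 2, ‖z‖ ∉ T → ∀ᵐ θ ∂(sg 2), DifferentiableAt ℝ k (Ax θ z)
  com : ∀ z : E 2, ‖z‖ ∉ T → ‖z‖ < 2 / Real.pi → ∀ a : Sph 2 → E 2, Measurable a →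
    (∀ᵐ θ ∂(sg 2), ‖a θ‖ ≤ 1) → |Jk k z a| ≤ 1

/-! ### Analysis -/

/-- ZF1 -/
def S_ZF1 : Prop := zf 1 1 = 2 / Real.pi

/-- ZDIF -/
def S_ZDIF : Prop := ∀ (M : Type) [MetricSpace M] [CompactSpace M] (S : OFill 2 M) (s : ℝ)
  (g : Sph 2 → M → ℝ), 0 < s → s < 1 → Fam (d := 1) S s g →
  ∀ i, ∀ᵐ p ∂(volume : Measure (E 2)), p ∈ (S.chart i).U →
    ∃ α : Sph 2 → E 2, Measurable α ∧
      (∀ᵐ θ ∂(sg 2), HasFDerivAt (g θ ∘ (S.chart i).map) (innerSL ℝ (α θ)) p) ∧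
      (∀ᵐ θ ∂(sg 2), ∀ v, |inner ℝ (α θ) v| ≤ gnorm ((S.chart i).G p) v) ∧
      ∃ L : E 2 →L[ℝ] E 2, (∀ v, L v = ∫ θ : Sph 2, inner ℝ (α θ) v • (θ : E 2) ∂(sg 2)) ∧
        HasFDerivAt (Zg g ∘ (S.chart i).map) L p

/-- LINA: linear algebra, the form in an orthonormal frame of `G` -/
def S_LINA : Prop := ∀ (k : E 2 → ℝ) (z : E 2) (α : Sph 2 → E 2) (G : Matrix (Fin 2) (Fin 2) ℝ),
  (∃ K : NNReal, LipschitzWith K k) → Measurable α → G.PosDef →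
  (∀ᵐ θ ∂(sg 2), ∀ v, |inner ℝ (α θ) v| ≤ gnorm G v) →
  ∃ a : Sph 2 → E 2, Measurable a ∧ (∀ᵐ θ ∂(sg 2), ‖a θ‖ ≤ 1) ∧ |Jk k z α| = √G.det * |Jk k z a|

/-- PTWP -/
def S_PTWP : Prop := ∀ (k : E 2 → ℝ) (T : Finset ℝ), Adk k T →
  ∀ (M : Type) [MetricSpace M] [CompactSpace M] (S : OFill 2 M) (s : ℝ)
  (g : Sph 2 → M → ℝ), 0 < s → s < 1 → Fam (d := 1) S s g → ∀ c : ℝ, 0 < c → c < 1 → ∀ i,
  (∀ ρ ∈ T, (volume : Measure (E 2))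
    {p | p ∈ (S.chart i).U ∧ c * ‖Zg g ((S.chart i).map p)‖ = ρ} = 0) →
  ∀ᵐ p ∂(volume : Measure (E 2)), p ∈ (S.chart i).U →
    |∫ θ, (fderiv ℝ (Ph (fun z => k (c • z)) g θ ∘ (S.chart i).map) p).det ∂(sg 2)| ≤
      √((S.chart i).G p).det

/-- LEV -/
def S_LEV : Prop := ∀ (M : Type) [MetricSpace M] [CompactSpace M] (S : OFill 2 M) (s : ℝ)
  (g : Sph 2 → M → ℝ), 0 < s → s < 1 → Fam (d := 1) S s g → ∀ T : Finset ℝ, (∀ ρ ∈ T, 0 < ρ) →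
  ∀ c₀ : ℝ, c₀ < 1 → ∃ c : ℝ, c₀ < c ∧ 0 < c ∧ c < 1 ∧ ∀ i, ∀ ρ ∈ T,
    (volume : Measure (E 2)) {p | p ∈ (S.chart i).U ∧ c * ‖Zg g ((S.chart i).map p)‖ = ρ} = 0

/-- LIPP -/
def S_LIPP : Prop := ∀ (k : E 2 → ℝ), (∃ K : NNReal, LipschitzWith K k) →
  ∀ (M : Type) [MetricSpace M] [CompactSpace M]
  (S : OFill 2 M) (s : ℝ) (g : Sph 2 → M → ℝ), 0 < s → s < 1 → Fam (d := 1) S s g →
  ∃ K : NNReal, (∀ θ, LipschitzWith K (Ph k g θ)) ∧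
    (∀ θ : Sph 2, LipschitzOnWith K (Ph0 k s θ) (closedBall 0 1)) ∧
    (∀ (θ x : Sph 2), Ph k g θ (S.bd x) = Ph0 k s θ (x : E 2)) ∧
    Continuous (fun z : Sph 2 × M => Ph k g z.1 z.2)

/-- VALP -/
def S_VALP : Prop := ∀ (k : E 2 → ℝ), (∃ K : NNReal, LipschitzWith K k) →
  (∀ z : E 2, k !₂[z 0, -(z 1)] = -k z) → ∀ s : ℝ, 0 < s → s < 1 →
  ∫ θ, (∫ y in ball (0 : E 2) 1, (fderiv ℝ (Ph0 k s θ) y).det) ∂(sg 2) =
    -(2 * ∫ x in (-1 : ℝ)..1, s * (√(1 - (s * x) ^ 2))⁻¹ *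
      k !₂[zf 1 s * x, zf 1 s * √(1 - x ^ 2)])

/-- the value -/
noncomputable def Vk (k : E 2 → ℝ) (s c : ℝ) : ℝ :=
  2 * ∫ x in (-1 : ℝ)..1, s * (√(1 - (s * x) ^ 2))⁻¹ *
    k !₂[c * zf 1 s * x, c * zf 1 s * √(1 - x ^ 2)]

/-- MAINP -/
def S_MAINP : Prop := ∀ (k : E 2 → ℝ) (T : Finset ℝ), Adk k T →
  ∀ (M : Type) [MetricSpace M] [CompactSpace M] (S : OFill 2 M),
  (∀ x y : Sph 2, angle (x : E 2) (y : E 2) ≤ dist (S.bd x) (S.bd y)) →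
  ∀ s : ℝ, 0 < s → s < 1 → ∀ c₀ : ℝ, c₀ < 1 → ∃ c : ℝ, c₀ < c ∧ 0 < c ∧ c < 1 ∧
    ENNReal.ofReal (Vk k s c) ≤ S.vol

/-- LIMP -/
def S_LIMP : Prop := ∀ (k : E 2 → ℝ), (∃ K : NNReal, LipschitzWith K k) → ∀ ε : ℝ, 0 < ε →
  ∃ s : ℝ, 0 < s ∧ s < 1 ∧ ∃ c₀ : ℝ, c₀ < 1 ∧ ∀ c : ℝ, c₀ < c → 0 < c → c < 1 →
    2 * (∫ v in (0 : ℝ)..Real.pi, k !₂[2 / Real.pi * Real.cos v, 2 / Real.pi * Real.sin v]) - ε ≤
      Vk k s c

/-- FINP -/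
def S_FINP : Prop := ∀ (k : E 2 → ℝ) (T : Finset ℝ), Adk k T →
  ∀ (M : Type) [MetricSpace M] [CompactSpace M] (S : OFill 2 M),
  (∀ x y : Sph 2, angle (x : E 2) (y : E 2) ≤ dist (S.bd x) (S.bd y)) →
  ENNReal.ofReal (2 * (∫ v in (0 : ℝ)..Real.pi,
    k !₂[2 / Real.pi * Real.cos v, 2 / Real.pi * Real.sin v])) ≤ S.vol

/-! ### The abstract comass inequality -/

/-- COMA -/
def S_COMA : Prop := ∀ (Ω : Type) [MeasurableSpace Ω] (μ : Measure Ω) [IsProbabilityMeasure μ]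
  (φ ψ : Fin 2 → Ω → ℝ) (l : Ω → ℝ), (∀ i, Measurable (φ i)) → (∀ i, Measurable (ψ i)) →
  Measurable l → (∃ C : ℝ, ∀ i ω, |φ i ω| ≤ C ∧ |ψ i ω| ≤ C) →
  (∃ l₀ l₁ : ℝ, 0 < l₀ ∧ ∀ ω, l₀ ≤ l ω ∧ l ω ≤ l₁) →
  (∀ i j, ∫ ω, φ i ω * ψ j ω / l ω ∂μ = 0) → ∫ ω, l ω ∂μ ≤ 1 →
  ∀ (X Y : Fin 2 → Fin 2 → ℝ), (∀ i j, X i j = ∫ ω, φ i ω * φ j ω / l ω ∂μ) →
  (∀ i j, Y i j = ∫ ω, ψ i ω * ψ j ω / l ω ∂μ) →
  X 0 0 * Y 0 0 + 2 * (X 0 1 * Y 0 1) + X 1 1 * Y 1 1 ≤ 8 →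
  0 ≤ 16 - 4 * (X 0 0 * Y 0 0 + 2 * (X 0 1 * Y 0 1) + X 1 1 * Y 1 1) +
    (X 0 0 * X 1 1 - X 0 1 ^ 2) * (Y 0 0 * Y 1 1 - Y 0 1 ^ 2) →
  ∀ a : Ω → E 2, Measurable a → (∀ᵐ ω ∂μ, ‖a ω‖ ≤ 1) →
  |dt (∫ ω, φ 0 ω • a ω ∂μ) (∫ ω, ψ 0 ω • a ω ∂μ) +
    dt (∫ ω, φ 1 ω • a ω ∂μ) (∫ ω, ψ 1 ω • a ω ∂μ)| ≤ 1

/-! ### The function `k` -/

/-- the clamp function with the slope `t` -/
noncomputable def Mc (t : ℝ) (z : E 2) : ℝ := max (-(t * |z 0|)) (min (t * |z 0|) (z 1))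

/-- the derivative of the clamp function along the unit circle -/
noncomputable def Mc' (t : ℝ) (w : E 2) : ℝ :=
  if |w 1| < t * |w 0| then w 0 else if 0 < w 0 then -(t * |w 1|) else t * |w 1|

/-- the data: `N` radii, `L` slopes -/
structure Dat (N L : ℕ) where
  ka : ℝ
  ρ : Fin N → ℝ
  t : Fin L → ℝ
  m0 : Fin N → ℝ
  m : Fin N → Fin L → ℝ

/-- the function `k` of the data -/
noncomputable def Dat.k {N L : ℕ} (D : Dat N L) (z : E 2) : ℝ :=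
  D.ka * z 1 + ∑ j, max 0 (1 - D.ρ j / ‖z‖) * (D.m0 j * z 1 + ∑ i, D.m j i * Mc (D.t i) z)

/-- the radial derivative of `k` at the radius `r`, as a function on the unit circle -/
noncomputable def Dat.A {N L : ℕ} (D : Dat N L) (r : ℝ) (w : E 2) : ℝ :=
  D.ka * w 1 + ∑ j, if D.ρ j < r then D.m0 j * w 1 + ∑ i, D.m j i * Mc (D.t i) w else 0

/-- minus the tangential derivative of `k` at the radius `r` -/
noncomputable def Dat.C {N L : ℕ} (D : Dat N L) (r : ℝ) (w : E 2) : ℝ :=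
  -(D.ka * w 0 + ∑ j, if D.ρ j < r then
    (1 - D.ρ j / r) * (D.m0 j * w 0 + ∑ i, D.m j i * Mc' (D.t i) w) else 0)

/-- KLD -/
def S_KLD : Prop := ∀ (N L : ℕ) (D : Dat N L), (∀ j, 0 < D.ρ j) → (∀ i, 0 < D.t i) →
  (∃ K : NNReal, LipschitzWith K D.k) ∧ (∀ z : E 2, D.k !₂[z 0, -(z 1)] = -D.k z) ∧
  (∀ z : E 2, (∀ j, ‖z‖ ≠ D.ρ j) → ∀ᵐ θ ∂(sg 2), DifferentiableAt ℝ D.k (Ax θ z))

/-- JPOL: the form in polar coordinates -/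
def S_JPOL : Prop := ∀ (N L : ℕ) (D : Dat N L), (∀ j, 0 < D.ρ j) → (∀ i, 0 < D.t i) →
  ∀ (r : ℝ) (e : Sph 2), 0 < r → (∀ j, r ≠ D.ρ j) → ∀ a : Sph 2 → E 2, Measurable a →
  (∀ᵐ θ ∂(sg 2), ‖a θ‖ ≤ 1) →
  Jk D.k (r • (e : E 2)) a =
    dt (∫ θ, Ax θ (e : E 2) 0 • a θ ∂(sg 2)) (∫ θ, D.A r (Ax θ (e : E 2)) • a θ ∂(sg 2)) +
    dt (∫ θ, Ax θ (e : E 2) 1 • a θ ∂(sg 2)) (∫ θ, D.C r (Ax θ (e : E 2)) • a θ ∂(sg 2))

/-- JZER: the form near the origin -/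
def S_JZER : Prop := ∀ (N L : ℕ) (D : Dat N L), (∀ j, 0 < D.ρ j) → (∀ i, 0 < D.t i) →
  |D.ka| ≤ 2 → ∀ z : E 2, (∀ j, ‖z‖ < D.ρ j) → ∀ a : Sph 2 → E 2, Measurable a →
  (∀ᵐ θ ∂(sg 2), ‖a θ‖ ≤ 1) → |Jk D.k z a| ≤ 1

/-- the form with given functions on the circle -/
noncomputable def Jf (e : Sph 2) (A C : E 2 → ℝ) (a : Sph 2 → E 2) : ℝ :=
  dt (∫ θ, Ax θ (e : E 2) 0 • a θ ∂(sg 2)) (∫ θ, A (Ax θ (e : E 2)) • a θ ∂(sg 2)) +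
    dt (∫ θ, Ax θ (e : E 2) 1 • a θ ∂(sg 2)) (∫ θ, C (Ax θ (e : E 2)) • a θ ∂(sg 2))

/-! ### Sectors -/

/-- In the first quadrant, the sector `l` of the slopes `t 0 < t 1 < …` consists of the `w` with
`t (l - 1) * |w 0| ≤ |w 1| < t l * |w 0|`; `sct t w` is the number of `i` with `t i * |w 0| ≤ |w 1|`. -/
noncomputable def sct {L : ℕ} (t : Fin L → ℝ) (w : E 2) : Fin (L + 1) :=
  ⟨(Finset.univ.filter fun i => t i * |w 0| ≤ |w 1|).card, by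
    have := Finset.card_filter_le (Finset.univ : Finset (Fin L)) (fun i => t i * |w 0| ≤ |w 1|)
    simp at this
    omega⟩

/-- the lower end of the sector `l`: the angle, `sin · cos` and `sin²` -/
noncomputable def lo3 {L : ℕ} (t : Fin L → ℝ) (l : Fin (L + 1)) : ℝ × ℝ × ℝ :=
  if h : 0 < l.val then
    let τ := t ⟨l.val - 1, by omega⟩
    (Real.arctan τ, τ / (1 + τ ^ 2), τ ^ 2 / (1 + τ ^ 2))
  else (0, 0, 0)

/-- the upper end of the sector `l` -/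
noncomputable def up3 {L : ℕ} (t : Fin L → ℝ) (l : Fin (L + 1)) : ℝ × ℝ × ℝ :=
  if h : l.val < L then
    let τ := t ⟨l.val, h⟩
    (Real.arctan τ, τ / (1 + τ ^ 2), τ ^ 2 / (1 + τ ^ 2))
  else (Real.pi / 2, 0, 1)

/-- the angle of the sector -/
noncomputable def Dl {L : ℕ} (t : Fin L → ℝ) (l : Fin (L + 1)) : ℝ := (up3 t l).1 - (lo3 t l).1

/-- the integral of `cos²` over the sector of the first quadrant -/
noncomputable def Icc2 {L : ℕ} (t : Fin L → ℝ) (l : Fin (L + 1)) : ℝ :=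
  (Dl t l + ((up3 t l).2.1 - (lo3 t l).2.1)) / 2

/-- the integral of `sin²` -/
noncomputable def Iss2 {L : ℕ} (t : Fin L → ℝ) (l : Fin (L + 1)) : ℝ :=
  (Dl t l - ((up3 t l).2.1 - (lo3 t l).2.1)) / 2

/-- the integral of `sin · cos` -/
noncomputable def Ics2 {L : ℕ} (t : Fin L → ℝ) (l : Fin (L + 1)) : ℝ :=
  ((up3 t l).2.2 - (lo3 t l).2.2) / 2

/-- SEC: integrals over the circle of functions which are quadratic on the sectors -/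
def S_SEC : Prop := ∀ (L : ℕ) (t : Fin L → ℝ), (∀ i, 0 < t i) → StrictMono t →
  ∀ (e : Sph 2) (x y z w : Fin (L + 1) → ℝ),
  ∫ θ, (x (sct t (Ax θ (e : E 2))) * (Ax θ (e : E 2) 0) ^ 2 +
      2 * y (sct t (Ax θ (e : E 2))) * |Ax θ (e : E 2) 0| * |Ax θ (e : E 2) 1| +
      z (sct t (Ax θ (e : E 2))) * (Ax θ (e : E 2) 1) ^ 2 + w (sct t (Ax θ (e : E 2)))) ∂(sg 2) =
    2 / Real.pi * ∑ l, (x l * Icc2 t l + 2 * y l * Ics2 t l + z l * Iss2 t l + w l * Dl t l)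

/-- The functions `A = sgn w₁ (α |w₀| + β |w₁|)` and `C = sgn w₀ (α' |w₁| - β' |w₀|)` on the sectors,
with the weights `l`, satisfy the numerical condition. -/
structure Cond {L : ℕ} (t : Fin L → ℝ) (α β α' β' l : Fin (L + 1) → ℝ) : Prop where
  pos : ∀ i, 0 < l i
  sum : ∑ i, l i * Dl t i ≤ Real.pi / 2
  tr : ∀ X00 X01 X11 Y00 Y01 Y11 : ℝ,
    X00 = ∑ i, Icc2 t i / l i → X01 = ∑ i, (α' i * Ics2 t i - β' i * Icc2 t i) / l i →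
    X11 = ∑ i, (α' i ^ 2 * Iss2 t i - 2 * α' i * β' i * Ics2 t i + β' i ^ 2 * Icc2 t i) / l i →
    Y00 = ∑ i, (α i ^ 2 * Icc2 t i + 2 * α i * β i * Ics2 t i + β i ^ 2 * Iss2 t i) / l i →
    Y01 = -∑ i, (α i * Ics2 t i + β i * Iss2 t i) / l i → Y11 = ∑ i, Iss2 t i / l i →
    X00 * Y00 + 2 * (X01 * Y01) + X11 * Y11 ≤ 2 * Real.pi ^ 2 ∧
    0 ≤ Real.pi ^ 4 - Real.pi ^ 2 * (X00 * Y00 + 2 * (X01 * Y01) + X11 * Y11) +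
      (X00 * X11 - X01 ^ 2) * (Y00 * Y11 - Y01 ^ 2)

/-- SECC: the comass inequality for functions given on the sectors -/
def S_SECC : Prop := ∀ (L : ℕ) (t : Fin L → ℝ), (∀ i, 0 < t i) → StrictMono t →
  ∀ (α β α' β' l : Fin (L + 1) → ℝ), Cond t α β α' β' l → ∀ (A C : E 2 → ℝ),
  (∀ w : E 2, ‖w‖ = 1 → w 0 ≠ 0 → w 1 ≠ 0 → A w = SignType.sign (w 1) *
    (α (sct t w) * |w 0| + β (sct t w) * |w 1|)) →
  (∀ w : E 2, ‖w‖ = 1 → w 0 ≠ 0 → w 1 ≠ 0 → C w = SignType.sign (w 0) *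
    (α' (sct t w) * |w 1| - β' (sct t w) * |w 0|)) →
  ∀ (e : Sph 2) (a : Sph 2 → E 2), Measurable a → (∀ᵐ θ ∂(sg 2), ‖a θ‖ ≤ 1) → |Jf e A C a| ≤ 1

/-- the coefficient `α` of `A` on the sectors: for the radii in `J` -/
noncomputable def Dat.al {N L : ℕ} (D : Dat N L) (f : Fin N → ℝ) (l : Fin (L + 1)) : ℝ :=
  ∑ j, f j * ∑ i : Fin L, if i.val < l.val then D.m j i * D.t i else 0

/-- the coefficient `β` of `A` on the sectors -/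
noncomputable def Dat.be {N L : ℕ} (D : Dat N L) (f : Fin N → ℝ) (l : Fin (L + 1)) : ℝ :=
  D.ka + ∑ j, f j * (D.m0 j + ∑ i : Fin L, if l.val ≤ i.val then D.m j i else 0)

/-- the radial weights of `A` and `C` for the radii between `ρ (J - 1)` and `ρ J` -/
def fA {N : ℕ} (J : ℕ) (j : Fin N) : ℝ := if j.val < J then 1 else 0

/-- the weights of `C` at the radius `r` -/
noncomputable def fC {N L : ℕ} (D : Dat N L) (J : ℕ) (r : ℝ) (j : Fin N) : ℝ :=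
  if j.val < J then 1 - D.ρ j / r else 0

/-- The certificate: the numerical condition holds at the ends of all the intervals
`(ρ (J - 1), ρ J)`, where `ρ N` stands for `R`. -/
structure Cert {N L : ℕ} (D : Dat N L) (R : ℝ) : Prop where
  ka : |D.ka| ≤ 2
  pos : ∀ j, 0 < D.ρ j
  tpos : ∀ i, 0 < D.t i
  mono : StrictMono D.ρ
  tmono : StrictMono D.t
  ltR : ∀ j, D.ρ j < R
  lo : ∀ J : Fin N, ∃ l, Cond D.t (D.al (fA (J.val + 1))) (D.be (fA (J.val + 1)))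
    (D.al (fC D (J.val + 1) (D.ρ J))) (D.be (fC D (J.val + 1) (D.ρ J))) l
  hi : ∀ J : Fin N, ∀ r : ℝ, (∀ h : J.val + 1 < N, r = D.ρ ⟨J.val + 1, h⟩) →
    (J.val + 1 = N → r = R) → ∃ l, Cond D.t (D.al (fA (J.val + 1))) (D.be (fA (J.val + 1)))
      (D.al (fC D (J.val + 1) r)) (D.be (fC D (J.val + 1) r)) l

/-- SGN: the functions `A` and `C` on the sectors -/
def S_SGN : Prop := ∀ (N L : ℕ) (D : Dat N L), (∀ j, 0 < D.ρ j) → StrictMono D.ρ →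
  (∀ i, 0 < D.t i) → StrictMono D.t → ∀ (J : ℕ) (r : ℝ), 0 < r →
  (∀ j : Fin N, D.ρ j < r ↔ j.val < J) → ∀ w : E 2, ‖w‖ = 1 → w 0 ≠ 0 → w 1 ≠ 0 →
  D.A r w = SignType.sign (w 1) *
    (D.al (fA J) (sct D.t w) * |w 0| + D.be (fA J) (sct D.t w) * |w 1|) ∧
  D.C r w = SignType.sign (w 0) *
    (D.al (fC D J r) (sct D.t w) * |w 1| - D.be (fC D J r) (sct D.t w) * |w 0|)

/-- ENDP: a certificate gives a calibration -/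
def S_ENDP : Prop := ∀ (N L : ℕ) (D : Dat N L) (R : ℝ), 2 / Real.pi ≤ R → Cert D R →
  Adk D.k (Finset.univ.image D.ρ)

/-- VALD: the value -/
def S_VALD : Prop := ∀ (N L : ℕ) (D : Dat N L), (∀ j, 0 < D.ρ j) → (∀ j, D.ρ j ≤ 2 / Real.pi) →
  (∀ i, 0 < D.t i) →
  2 * (∫ v in (0 : ℝ)..Real.pi, D.k !₂[2 / Real.pi * Real.cos v, 2 / Real.pi * Real.sin v]) =
    4 * (2 / Real.pi * D.ka + ∑ j, (2 / Real.pi - D.ρ j) * (D.m0 j + ∑ i, D.m j i *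
      (1 - (√(1 + D.t i ^ 2))⁻¹ + (D.t i - D.t i ^ 2 * (√(1 + D.t i ^ 2))⁻¹))))

/-- ARC: bounds for the arcus tangens -/
def S_ARC : Prop := ∀ x : ℝ, 0 ≤ x → x ≤ 1 →
  x - x ^ 3 / 3 + x ^ 5 / 5 - x ^ 7 / 7 ≤ Real.arctan x ∧
  Real.arctan x ≤ x - x ^ 3 / 3 + x ^ 5 / 5

end Pool.Agent.N979.P1
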